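import Mathlib
import Pool.Agent.N140.RO.Rk
import Pool.Agent.N140.RO.Cnt2

/-!
# The Tate conjecture at 2 along random orbits in all the loci of elliptic surfaces of rank at least two
# given by `p = α q + β r`, over all number fields at the same time

Let `K` be a number field, `ω` a basis of its ring of integers, `N ≥ 5` odd. The coordinates of the
coefficients of two polynomials `q`, `r` of degree at most `N` over the ring of integers form a vector `c` of
integers. Let `k'` be a finite extension of `K` and let `α`, `β`, `μ` be nonzero elements of `k'` such that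

`((α + β)² - 1) ((α - β)² - 1) = μ²`.

Put `p = α q + β r` and let `X` be the elliptic surface over the projective line with the generic fibre

`E : y² = x (x - (p² - q²)) (x - (p² - r²))`.

The surface is geometrically simply connected, its geometric genus is `N - 1`, there are the `6 N` fibres of
type `I₂` over the zeros of `p ± q`, `p ± r`, `q ± r`, and because of the condition on `α`, `β` there are
two sections which are independent in general. For fixed `α`, `β` these surfaces form a locus of
codimension `2 N` in the family of all the elliptic surfaces `y² = x (x - a) (x - b)`.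

The vector `c` is good for `α`, `β` over `k'` (`GoodOver`) if `q` and `r` are coprime, the six polynomials
`p ± q`, `p ± r`, `q ± r` are irreducible over `k'` of degree `N`, and for EVERY extension field `L` of `k'` such
that for each element of `L` which is algebraic over `k'` the Galois group of its minimal polynomial over
`k'` is solvable (for example `L = k'`, or more generally if the elements of `L` which are algebraic over
`k'` are in a normal extension of `k'` over which none of the six polynomials splits into linear factors)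
the Tate conjecture for divisors at the prime 2 holds for the surface over `L` (`TateAtTwo`), and
`E(L(t))` contains two linearly independent points.

Theorem. (1) For every finite extension `k'` of `K` and all such `α`, `β`, `μ` in `k'` the set of the
integral vectors `c` which are not good for `α`, `β` over `k'` is pronull: its closure in the product of the
`ℤ_p^r`, `p` prime to any given `M`, has Haar measure zero.

(2) (Random orbits.) Let `s_0, ..., s_m'` be matrices in `SL_r(ℤ)` which generate `SL_r(ℤ/q)` for all `q` prime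
to some number. (By strong approximation these are all the finite families which generate a
Zariski dense group; the group may have infinite index in `SL_r(ℤ)`.) Let `v ≠ 0` be an integral vector. For
independent, uniformly chosen indices `w 0, w 1, ...` let `c_n = s_{w (n-1)} ... s_{w 0} v`. For almost all `w` the
following holds: for ALL finite extensions `k'` of `K` in an algebraic closure and for ALL loci over
`k'` (all `α`, `β`, `μ` in `k'` as above) the vector `c_n` is good for `α`, `β` over `k'` for all `n` outside a
set of density zero.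

Proof. Local criterion of helper601 (`MP_1bad5e_ag.RankTwoLocus`): Frobenius elements at maximal ideals show
that the Galois groups of the six polynomials over `k'` are the full symmetric groups. For the
parameters over `K` we use the primes of `k'` of degree one (`Pool.Agent.N140.RO.Sv2`), and then the engine of
helpers 24, 123, 195, 300, 543 and 765 for random orbits.
-/

set_option autoImplicit false

namespace Pool.Agent.Results.MP_1bad5e_ag.RandomOrbits

open Polynomial NumberField MeasureTheory Filter Topology Pool.Agent.N24.RW Pool.Agent.N140.RO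
  Pool.Agent.N140.RO.Rk

/-- The coordinates of the coefficients of the pair `(q, r)`. -/
abbrev Idx (N : ℕ) (J : Type) : Type := (Fin (N + 1) ⊕ Fin (N + 1)) × J

section

variable {K : Type} [Field K] {J : Type} [Fintype J] (ω : Module.Basis J ℤ (𝓞 K)) {N : ℕ}

/-- The polynomial `q` over the ring of integers with the coordinates `c`. -/
noncomputable def polQ (c : Idx N J → ℤ) : K[X] :=
  ∑ j : Fin (N + 1), C (algebraMap (𝓞 K) K (vec ω c (Sum.inl j))) * X ^ (j : ℕ)

/-- The polynomial `r` over the ring of integers with the coordinates `c`. -/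
noncomputable def polR (c : Idx N J → ℤ) : K[X] :=
  ∑ j : Fin (N + 1), C (algebraMap (𝓞 K) K (vec ω c (Sum.inr j))) * X ^ (j : ℕ)

/-- The vector `c` is good for `α`, `β` over the extension `E` of `K`. -/
def GoodOver (E : Type) [Field E] [Algebra K E] (α β : E) (c : Idx N J → ℤ) : Prop :=
  Good E N α β ((polQ ω c).map (algebraMap K E)) ((polR ω c).map (algebraMap K E))

/-- The condition on `α` and `β`. -/
def Locus (E : Type) [Field E] (α β μ : E) : Prop :=
  α ≠ 0 ∧ β ≠ 0 ∧ μ ≠ 0 ∧ ((α + β) ^ 2 - 1) * ((α - β) ^ 2 - 1) = μ ^ 2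

end

open Pool.Agent.X243.Gen in
theorem pro {K : Type} [Field K] {J : Type} [Fintype J] (ω : Module.Basis J ℤ (𝓞 K)) {N : ℕ}
    (hN : 5 ≤ N) (hodd : Odd N) (E : Type) [Field E] [NumberField E] [Algebra K E] {α β μ : E}
    (hL : Locus E α β μ) : ProNull {c : Idx N J → ℤ | ¬ GoodOver ω E α β c} := by
  classical
  obtain ⟨hα, hβ, hμ, hsq⟩ := hL
  have hDD : (0 : ℝ) < 1 / ((Pool.Agent.X243.Sol.DD N * Pool.Agent.X243.Sol.DD N : ℕ) : ℝ) := by
    have h1 : 0 < Pool.Agent.X243.Sol.DD N := by
      have := Pool.Agent.X243.Sol.D3_pos N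
      unfold Pool.Agent.X243.Sol.DD
      have h3 : 0 < 4 * N := by omega
      positivity
    have h2 : (0 : ℝ) < ((Pool.Agent.X243.Sol.DD N * Pool.Agent.X243.Sol.DD N : ℕ) : ℝ) := by
      exact_mod_cast Nat.mul_pos h1 h1
    positivity
  have h2 : (2 : 𝓞 E) ≠ 0 := two_ne_zero
  -- a common denominator
  obtain ⟨A, B, D, hD, hA, hB⟩ : ∃ A B D : 𝓞 E, D ≠ 0 ∧
      α * algebraMap (𝓞 E) E D = algebraMap (𝓞 E) E A ∧
      β * algebraMap (𝓞 E) E D = algebraMap (𝓞 E) E B := by
    obtain ⟨⟨a, d⟩, ha⟩ := IsLocalization.surj (nonZeroDivisors (𝓞 E)) α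
    obtain ⟨⟨b, e⟩, hb⟩ := IsLocalization.surj (nonZeroDivisors (𝓞 E)) β
    refine ⟨a * e, b * d, d * e, mul_ne_zero (nonZeroDivisors.ne_zero d.2)
      (nonZeroDivisors.ne_zero e.2), ?_, ?_⟩
    · rw [map_mul, map_mul, ← mul_assoc, ha]
    · rw [map_mul, map_mul, mul_comm (algebraMap (𝓞 E) E (d : 𝓞 E)), ← mul_assoc, hb]
  have hDk : algebraMap (𝓞 E) E D ≠ 0 :=
    (map_ne_zero_iff _ (IsFractionRing.injective (𝓞 E) E)).2 hD
  have hA0 : A ≠ 0 := by
    rintro rfl
    rw [map_zero] at hA
    exact mul_ne_zero hα hDk hA
  have hB0 : B ≠ 0 := by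
    rintro rfl
    rw [map_zero] at hB
    exact mul_ne_zero hβ hDk hB
  have hc₀ : cst (rl A D) (rm B D) 4 5 ≠ 0 := cst_ne (r_ne (D := D) hA0 hB0) (r_det h2 A B D)
  refine proNull_of (σ := Option (Fin 6 × Fin 3)) (fun s => {c : Idx N J → ℤ |
      ∀ P ∈ Two2.Big E (2 * N + 2) (cst (rl A D) (rm B D) 4 5),
      (fun i => Ideal.Quotient.mk P (algebraMap (𝓞 K) (𝓞 E) (vec ω c i))) ∉
        Lev N (rl A D) (rm B D) 4 5 s P}) _ (fun s => ?_) ?_
  · refine Two2.pro_sieve t_CRIT ω (2 * N + 2) hc₀ (fun P => Lev N (rl A D) (rm B D) 4 5 s P) hDD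
      (fun P hP => ?_)
    have h1 := Lev_card (by omega : 3 ≤ N) (rl A D) (rm B D) 4 5 s hP
    have hc : Fintype.card (Fin (N + 1) ⊕ Fin (N + 1)) = 2 * N + 2 := by
      rw [Fintype.card_sum, Fintype.card_fin]
      omega
    have hD' : (0 : ℝ) < ((Pool.Agent.X243.Sol.DD N * Pool.Agent.X243.Sol.DD N : ℕ) : ℝ) := by
      by_contra hle
      have h0 := le_antisymm (not_lt.1 hle) (Nat.cast_nonneg _)
      rw [h0, div_zero] at hDD
      exact lt_irrefl _ hDD
    rw [hc, one_div, inv_mul_le_iff₀ hD']
    exact_mod_cast h1
  · intro c hc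
    by_contra hno
    apply hc
    simp only [Set.mem_ofPred_eq, not_exists, not_forall, not_not] at hno
    set z : Pairs N (𝓞 E) := (fun j => algebraMap (𝓞 K) (𝓞 E) (vec ω c (Sum.inl j)),
      fun j => algebraMap (𝓞 K) (𝓞 E) (vec ω c (Sum.inr j))) with hz
    have hzv : toV z = fun i => algebraMap (𝓞 K) (𝓞 E) (vec ω c i) := by
      funext i
      rcases i with j | j <;> rfl
    have key := good_of (R := 𝓞 E) (k := E) h2 hD hA hB hα hβ hμ hsq (b := 2 * N + 2)
      (c := cst (rl A D) (rm B D) 4 5) hN hodd (z := z) (fun s => by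
        obtain ⟨P, hP, h⟩ := hno s
        refine ⟨P, hP, ?_⟩
        rw [hzv]
        exact h)
    have e1 : poly E z.1 = (polQ ω c).map (algebraMap K E) := by
      rw [poly, polQ, Polynomial.map_sum]
      refine Finset.sum_congr rfl fun j _ => ?_
      rw [Polynomial.map_mul, Polynomial.map_pow, map_C, map_X, hz,
        ← IsScalarTower.algebraMap_apply, ← IsScalarTower.algebraMap_apply]
    have e2 : poly E z.2 = (polR ω c).map (algebraMap K E) := by
      rw [poly, polR, Polynomial.map_sum]
      refine Finset.sum_congr rfl fun j _ => ?_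
      rw [Polynomial.map_mul, Polynomial.map_pow, map_C, map_X, hz,
        ← IsScalarTower.algebraMap_apply, ← IsScalarTower.algebraMap_apply]
    rw [e1, e2] at key
    exact key

theorem result {K : Type} [Field K] [NumberField K] {J : Type} [Fintype J] [DecidableEq J]
    (ω : Module.Basis J ℤ (𝓞 K)) {N : ℕ} (hN : 5 ≤ N) (hodd : Odd N) :
    (∀ (E : Type) [Field E] [NumberField E] [Algebra K E] (α β μ : E), Locus E α β μ →
      ProNull {c : Idx N J → ℤ | ¬ GoodOver ω E α β c}) ∧
    ∀ (W : Walk (Idx N J)) (v : Idx N J → ℤ), v ≠ 0 → ∀ᵐ w ∂(words W.m),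
      ∀ E : IntermediateField K (AlgebraicClosure K), FiniteDimensional K E →
        ∀ α β μ : E, Locus E α β μ → Tendsto (fun n : ℕ =>
          (({i : ℕ | i < n ∧ ¬ GoodOver ω E α β (orb W v w i)}.ncard : ℕ) : ℝ) / (n : ℝ))
            atTop (𝓝 0) := by
  have h1 : ∀ (E : Type) [Field E] [NumberField E] [Algebra K E] (α β μ : E), Locus E α β μ →
      ProNull {c : Idx N J → ℤ | ¬ GoodOver ω E α β c} := fun E _ _ _ α β μ hL =>
    pro ω hN hodd E hL
  have h2 : 2 ≤ Fintype.card (Idx N J) := by
    have hJ : 0 < Fintype.card J := by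
      have : Nonempty J := ω.index_nonempty
      exact Fintype.card_pos
    rw [Fintype.card_prod, Fintype.card_sum, Fintype.card_fin]
    calc 2 ≤ (N + 1 + (N + 1)) * 1 := by omega
      _ ≤ (N + 1 + (N + 1)) * Fintype.card J := Nat.mul_le_mul_left _ hJ
  refine ⟨h1, fun W v hv => ?_⟩
  have h3 := ae_all_t h2 (fun E [Field E] => E × E × E)
    (fun E [Field E] hE => by have := hE; exact inferInstance)
    (fun E [Field E] [Algebra K E] t c => Locus E t.1 t.2.1 t.2.2 → GoodOver ω E t.1 t.2.1 c)
    (fun E [Field E] [NumberField E] [Algebra K E] t => by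
      by_cases hL : Locus E t.1 t.2.1 t.2.2
      · refine Clo.mono ?_ (h1 E t.1 t.2.1 t.2.2 hL)
        intro c hc hg
        exact hc fun _ => hg
      · refine Clo.mono ?_ proNull_empty
        intro c hc
        exact hc fun h => absurd h hL) W v hv
  filter_upwards [h3] with w hw E hE α β μ hL
  have h4 := hw E hE (α, β, μ)
  refine h4.congr fun n => ?_
  congr 3
  ext i
  simp only [Set.mem_ofPred_eq]
  constructor
  · rintro ⟨h5, h6⟩
    exact ⟨h5, fun h7 => h6 fun _ => h7⟩
  · rintro ⟨h5, h6⟩
    exact ⟨h5, fun h7 => h6 (h7 hL)⟩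

end Pool.Agent.Results.MP_1bad5e_ag.RandomOrbits
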