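import Mathlib
import Pool.Agent.Results.MP_1bad5e_ag.RandomOrbits
import Pool.Agent.N918.EQ.Base

/-!
# The Tate conjecture at 2 along all equidistributed sequences, along metric sequences and along generalised
polynomials, in all the loci of elliptic surfaces of rank at least two given by `p = α q + β r`, over all
number fields at the same time

Let `K` be a number field, `ω` a basis of its ring of integers, `N ≥ 5` odd. The coordinates of the
coefficients of two polynomials `q`, `r` of degree at most `N` over the ring of integers form a vector of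
`ρ` integers. Let `k'` be a finite extension of `K` and let `α`, `β`, `μ` be nonzero elements of `k'` such that
`((α + β)² - 1) ((α - β)² - 1) = μ²`. Put `p = α q + β r` and let `X` be the elliptic surface over the
projective line with the generic fibre

`E : y² = x (x - (p² - q²)) (x - (p² - r²))`.

A vector is good for `α`, `β` over `k'` (`GoodOver`, see `RandomOrbits.lean`) if `q` and `r` are coprime,
the six polynomials `p ± q`, `p ± r`, `q ± r` are irreducible over `k'` of degree `N`, and for EVERY extension
field `L` of `k'` in which the elements which are algebraic over `k'` have minimal polynomials with solvable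
Galois groups the Tate conjecture for divisors at the prime 2 holds for the surface over `L`, and `E(L(t))`
contains two linearly independent points.

`UsuallyGood ω N S c`: for ALL finite extensions `k'` of `K` and ALL loci over `k'` (all `α`, `β`, `μ` in `k'` as
above) the proportion of the times `n` in `S m` for which `c n` is not good for `α`, `β` over `k'` tends to zero,
`m → ∞`.

**Theorem.**

(1) Let `c n`, `n = 0, 1, ...`, be any sequence of integral vectors and let `S m`, `m = 0, 1, ...`, be any finite sets
of times (intervals, short intervals, the primes of an interval, ...) such that for all `q'` prime to some number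
every class modulo `q'` contains at most the proportion `q' ^ (-ρ) + o(1)` of the `c n`, `n` in `S m`. Then the `c n`
are usually good along `S m`.

(2) For any Koksma sequences `f_{i,0}, f_{i,1}, ...` on intervals `[a_i, b_i]`, for almost all `x` in the box the
vectors `c n = (⌊f_{i,n}(x_i)⌋)_i` are usually good along `{0, ..., m - 1}`.

(3) The same holds for `c n = (⌊a_{i,n} x_i⌋)_i` and almost all real vectors `x`, for ARBITRARY real numbers `a_{i,n}`
with `|a_{i,m} - a_{i,n}| ≥ δ > 0`, `m ≠ n`, in particular for every sequence of different integers (factorials,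
`2 ^ n`, any enumeration of any infinite set of integers).

(4) The same holds for `c n = (⌊ξ_i x_i ^ (k_n)⌋)_i`, for all sequences of different natural numbers `k_n`, all
`ξ_i ≠ 0` and almost all `x` with all `x_i > 1`.

(5) For generalised polynomials `c n = (⌊∑_{t ∈ F_i} a_{i,t} n ^ t⌋)_i` with different positive nonintegral leading
exponents and positive leading coefficients the `c n` are usually good along the integers and along the primes
of `(m, 2 m]`.

Proof. The set of the vectors which are not good for `α`, `β` over `k'` is pronull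
(`Pool.Agent.Results.MP_1bad5e_ag.RandomOrbits.pro`, with the local criterion of helper601 and the sieve of
helper140). A pronull set is rarely visited by equidistributed sequences (`Pool.Agent.N918.EQ`); metric sequences:
`Pool.Agent.N24.KM` (helpers 24, 344, 617, 199, 764, 432, 286); generalised polynomials: `Pool.Agent.N666.TM`
(helper666). There are only countably many finite extensions of `K` in an algebraic closure and loci over them.
-/

set_option autoImplicit false

namespace Pool.Agent.Results.MP_1bad5e_ag.EquidistributedSequences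

open NumberField MeasureTheory Filter Topology
open Pool.Agent.Results.MP_1bad5e_ag.RandomOrbits (Idx GoodOver Locus)
open Pool.Agent.N24.KM (Koksma)
open Pool.Agent.N918.EQ (Equi RareIn)

/-- For ALL finite extensions `E` of `K` and ALL loci over `E` the proportion of the times `n` in `S m` for which the
vector `c n` is not good tends to zero, `m → ∞`. -/
def UsuallyGood {K : Type} [Field K] {J : Type} [Fintype J] (ω : Module.Basis J ℤ (𝓞 K)) (N : ℕ)
    (S : ℕ → Finset ℕ) (c : ℕ → Idx N J → ℤ) : Prop :=
  ∀ E : IntermediateField K (AlgebraicClosure K), FiniteDimensional K E → ∀ α β μ : E, Locus E α β μ →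
    ∀ ε : ℝ, 0 < ε → ∃ m₀ : ℕ, ∀ m : ℕ, m₀ ≤ m →
      (({n : ℕ | n ∈ S m ∧ ¬ GoodOver ω E α β (c n)}.ncard : ℕ) : ℝ) ≤ ε * (S m).card

/-- the general form -/
theorem ae_usually {K : Type} [Field K] [NumberField K] {J : Type} [Fintype J]
    (ω : Module.Basis J ℤ (𝓞 K)) {N : ℕ} (hN : 5 ≤ N) (hodd : Odd N) {X : Type} [MeasurableSpace X]
    (ν : Measure X) (S : ℕ → Finset ℕ) (c : X → ℕ → Idx N J → ℤ) (P : X → Prop)
    (h : ∀ B : Set (Idx N J → ℤ), Pool.Agent.N24.RW.ProNull B → ∀ᵐ x ∂ν, P x → RareIn S (c x) B) :
    ∀ᵐ x ∂ν, P x → UsuallyGood ω N S (c x) := by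
  have h1 := Pool.Agent.N918.EQ.ae_all_ext (K := K) ν (fun x B => P x → RareIn S (c x) B) h
    (fun E [Field E] => E × E × E)
    (fun E [Field E] hE => by have := hE; exact inferInstance)
    (fun E [Field E] [Algebra K E] t c => Locus E t.1 t.2.1 t.2.2 → GoodOver ω E t.1 t.2.1 c)
    (fun E [Field E] [NumberField E] [Algebra K E] t => by
      by_cases hL : Locus E t.1 t.2.1 t.2.2
      · refine Pool.Agent.N24.RW.Clo.mono ?_
          (Pool.Agent.Results.MP_1bad5e_ag.RandomOrbits.pro ω hN hodd E hL)
        intro c hc hg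
        exact hc fun _ => hg
      · refine Pool.Agent.N24.RW.Clo.mono ?_ Pool.Agent.N140.RO.proNull_empty
        intro c hc
        exact hc fun h => absurd h hL)
  filter_upwards [h1] with x hx hP E hE α β μ hL ε hε
  obtain ⟨m₀, hm⟩ := hx E hE (α, β, μ) hP ε hε
  refine ⟨m₀, fun m hmm => le_trans ?_ (hm m hmm)⟩
  refine Nat.cast_le.2 (Set.ncard_le_ncard ?_ ((S m).finite_toSet.subset fun n hn => hn.1))
  rintro n ⟨h5, h6⟩
  exact ⟨h5, fun h7 => h6 (h7 hL)⟩

/-- one sequence -/
theorem usually {K : Type} [Field K] [NumberField K] {J : Type} [Fintype J]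
    (ω : Module.Basis J ℤ (𝓞 K)) {N : ℕ} (hN : 5 ≤ N) (hodd : Odd N) (S : ℕ → Finset ℕ)
    (c : ℕ → Idx N J → ℤ)
    (h : ∀ B : Set (Idx N J → ℤ), Pool.Agent.N24.RW.ProNull B → RareIn S c B) :
    UsuallyGood ω N S c := by
  have h1 := ae_usually ω hN hodd (Measure.dirac ()) S (fun _ => c) (fun _ => True)
    (fun B hB => Eventually.of_forall fun _ _ => h B hB)
  obtain ⟨x, hx⟩ := h1.exists
  exact hx trivial

theorem result {K : Type} [Field K] [NumberField K] {J : Type} [Fintype J] [DecidableEq J]
    (ω : Module.Basis J ℤ (𝓞 K)) {N : ℕ} (hN : 5 ≤ N) (hodd : Odd N) :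
    -- (1) all equidistributed sequences, along arbitrary finite sets of times
    (∀ (S : ℕ → Finset ℕ) (c : ℕ → Idx N J → ℤ), Equi S c → UsuallyGood ω N S c) ∧
    -- (2) Koksma sequences
    (∀ (a b : Idx N J → ℝ) (f : Idx N J → ℕ → ℝ → ℝ), (∀ i, a i < b i) →
      (∀ i, Koksma (a i) (b i) (f i)) → ∀ᵐ x : Idx N J → ℝ, (∀ i, x i ∈ Set.Icc (a i) (b i)) →
        UsuallyGood ω N Finset.range (fun n i => ⌊f i n (x i)⌋)) ∧
    -- (3) arbitrary sequences of real numbers with a gap, for instance different integers
    (∀ (a : Idx N J → ℕ → ℝ) (δ : ℝ), 0 < δ → (∀ i m n, m ≠ n → δ ≤ |a i m - a i n|) →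
      ∀ᵐ x : Idx N J → ℝ, UsuallyGood ω N Finset.range (fun n i => ⌊a i n * x i⌋)) ∧
    -- (4) powers
    (∀ (k : ℕ → ℕ) (ξ : Idx N J → ℝ), Function.Injective k → (∀ i, ξ i ≠ 0) →
      ∀ᵐ x : Idx N J → ℝ, (∀ i, 1 < x i) →
        UsuallyGood ω N Finset.range (fun n i => ⌊ξ i * x i ^ k n⌋)) ∧
    -- (5) generalised polynomials, at the integers and at the primes
    (∀ (F : Idx N J → Finset ℝ) (a : Idx N J → ℝ → ℝ) (e : Idx N J → ℝ),
      (∀ i, e i ∈ F i ∧ (∀ t ∈ F i, t ≤ e i) ∧ 0 < e i ∧ (∀ m : ℕ, e i ≠ m) ∧ 0 < a i (e i)) →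
      Function.Injective e →
      UsuallyGood ω N (fun m => Finset.Ioc m (2 * m))
        (fun n i => ⌊∑ t ∈ F i, a i t * (n : ℝ) ^ t⌋) ∧
      UsuallyGood ω N (fun m => (Finset.Ioc m (2 * m)).filter Nat.Prime)
        (fun n i => ⌊∑ t ∈ F i, a i t * (n : ℝ) ^ t⌋)) := by
  have hne : Nonempty (Idx N J) := by
    have : Nonempty J := ω.index_nonempty
    exact ⟨(Sum.inl 0, Classical.arbitrary J)⟩
  refine ⟨fun S c hc => usually ω hN hodd S c fun B hB => Pool.Agent.N918.EQ.rareIn_of_equi hc hB,
    fun a b f hab hf => ?_, fun a δ hδ ha => ?_, fun k ξ hk hξ => ?_, fun F a e he hinj => ?_⟩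
  · refine ae_usually ω hN hodd volume Finset.range (fun (x : Idx N J → ℝ) n i => ⌊f i n (x i)⌋)
      (fun x => ∀ i, x i ∈ Set.Icc (a i) (b i)) fun B hB => ?_
    filter_upwards [(Pool.Agent.N24.KM.main _ B hB).1 a b f hab hf] with x hx hP
    exact Pool.Agent.N918.EQ.rareIn_of_rarely (hx hP)
  · have h := ae_usually ω hN hodd volume Finset.range (fun (x : Idx N J → ℝ) n i => ⌊a i n * x i⌋)
      (fun _ => True) fun B hB => by
        filter_upwards [(Pool.Agent.N24.KM.main _ B hB).2.1 a δ hδ ha] with x hx _
        exact Pool.Agent.N918.EQ.rareIn_of_rarely hx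
    filter_upwards [h] with x hx
    exact hx trivial
  · refine ae_usually ω hN hodd volume Finset.range (fun (x : Idx N J → ℝ) n i => ⌊ξ i * x i ^ k n⌋)
      (fun x => ∀ i, 1 < x i) fun B hB => ?_
    filter_upwards [(Pool.Agent.N24.KM.main _ B hB).2.2 k ξ hk hξ] with x hx hP
    exact Pool.Agent.N918.EQ.rareIn_of_rarely (hx hP)
  · obtain ⟨⟨κ, hκ, h1⟩, ⟨κ', hκ', h2⟩⟩ := Pool.Agent.N666.TM.fl_well he hinj
    exact ⟨usually ω hN hodd _ _ fun B hB => Pool.Agent.N918.EQ.rareIn_of_well hκ h1 hB,
      usually ω hN hodd _ _ fun B hB => Pool.Agent.N918.EQ.rareIn_of_well hκ' h2 hB⟩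

end Pool.Agent.Results.MP_1bad5e_ag.EquidistributedSequences
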