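import Mathlib
import Pool.Agent.TH115.GD.Defs
import Pool.Agent.X243.Gen.RkTwo

/-!
# The Tate conjecture at 2 on a locus of elliptic surfaces of Mordell-Weil rank at least two, for 100% of its
# members over all finitely generated fields of characteristic different from 2 and all their
# extensions with solvable constants

Let `R` be an integrally closed domain which is finitely generated as a ring and not a field, with
`2 ≠ 0` in `R`, and `k` its field of fractions. (Each infinite finitely generated field of
characteristic different from 2 is the field of fractions of such an `R`.) Let `α`, `β`, `μ` be nonzero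
elements of `k` such that

`((α + β)² - 1) ((α - β)² - 1) = μ²`.

For polynomials `q`, `r` of degree at most `N` in the variable `t` put `p = α q + β r`, and let `X` be the
elliptic surface over the projective line with the generic fibre

`E : y² = x (x - (p² - q²)) (x - (p² - r²))`.

The points of order two are rational, there are the `6 N` fibres of type `I₂` over the zeros of
`p ± q`, `p ± r`, `q ± r`, the surface is geometrically simply connected and its geometric genus is `N - 1`.
Because of the condition on `α`, `β` there are two sections which are independent in general. For fixed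
`α`, `β` these surfaces form a locus of codimension `2 N` in the family of all the elliptic surfaces
`y² = x (x - a) (x - b)` with `a`, `b` of degree at most `2 N`.

Call `(q, r)` good if `q` and `r` are coprime, the six polynomials `p ± q`, `p ± r`, `q ± r` are irreducible over
`k` of degree `N` and separable, and for EVERY extension field `L` of `k` (for example `L = k`) with a
separable closure `L'` the following holds.

(A) If the elements of `L` which are separable algebraic over `k` lie in a normal extension `M` of `k` in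
`L'`, such that none of the six polynomials splits into linear factors over `M`, then (`HoldsOver`)

(i) the Tate conjecture for divisors at the prime 2 holds for the surface over `L` (`TateAtTwo`);

(ii) `E(L(t))` contains two linearly independent points.

(B) The same is true if for each element of `L` which is separable algebraic over `k` the Galois group of
its minimal polynomial over `k` is solvable.

Theorem. Let `N ≥ 5` be odd.

(1) (Congruences.) For every `η > 0` there is an ideal `M` of `R` with finite quotient and a set of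
residue classes modulo `M` of pairs `(q, r)` over `R` of degree at most `N` with proportion at least
`1 - η` among all the residue classes, such that EVERY pair over `R` in one of these residue classes
is good.

(2) (100%.) Let `B 0`, `B 1`, ... be a sequence of nonempty finite sets of such pairs over `R` which is
equidistributed modulo each ideal of `R` with finite quotient. Then the proportion of the good
pairs in `B i` tends to `1`.

The proof: Frobenius elements at maximal ideals of `R` show that the Galois groups of the six polynomials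
over `k` are the full symmetric groups, so they stay irreducible over `L`. The points of order two and the
two points give all the triples of divisors which the first descent for Galois invariant classes allows;
the parities of the orders of the points at the six places show that they are independent. Last, a
sieve over the maximal ideals of `R` for linear forms in `(q, r)`.
-/

namespace Pool.Agent.Results.MP_1bad5e_ag.RankTwoLocus

open Polynomial Pool.Agent.TH115.GD Filter Topology
open scoped Classical

/-- The polynomial over `k` with the coefficients `c`. -/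
noncomputable def poly {R : Type} [CommRing R] (k : Type) [Field k] [Algebra R k] {r : ℕ}
    (c : Fin r → R) : k[X] :=
  ∑ j : Fin r, C (algebraMap R k (c j)) * X ^ (j : ℕ)

/-- The polynomial `p = α q + β r`. -/
noncomputable def pp {k : Type} [Field k] (α β : k) (q r : k[X]) : k[X] := C α * q + C β * r

/-- The six polynomials `p ± q`, `p ± r`, `q ± r`. -/
def six {k : Type} [Field k] (α β : k) (q r : k[X]) : Set k[X] :=
  {pp α β q r + q, pp α β q r - q, pp α β q r + r, pp α β q r - r, q + r, q - r}

/-- The curve `y² = x (x - (p² - q²)) (x - (p² - r²))` over `K = L(t)`. -/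
noncomputable abbrev Ep {k : Type} [Field k] (L K : Type) [Field L] [Algebra k L] [Field K]
    [Algebra L[X] K] (α β : k) (q r : k[X]) : WeierstrassCurve K :=
  crv (algebraMap L[X] K ((pp α β q r ^ 2 - q ^ 2).map (algebraMap k L)))
    (algebraMap L[X] K ((pp α β q r ^ 2 - r ^ 2).map (algebraMap k L)))

/-- The pairs of coefficient vectors of polynomials of degree at most `N`. -/
abbrev Pairs (N : ℕ) (R : Type) : Type := (Fin (N + 1) → R) × (Fin (N + 1) → R)

/-- The conclusions over `L` (`L'` is a separable closure of `L`, `K = L(t)`, `F = L'(t)`). -/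
def HoldsOver {k : Type} [Field k] (α β : k) (q r : k[X]) (L L' K F : Type) [Field L] [Field L']
    [Algebra L L'] [Field K] [Algebra L[X] K] [Field F] [Algebra L'[X] F]
    [IsFractionRing L'[X] F] [Algebra K F] [Algebra k L] : Prop :=
  TateAtTwo (F := F) L' (Ep L K α β q r) ∧
    ∃ P : Fin 2 → Pt (Ep L K α β q r) K, LinearIndependent ℤ P

/-- The good pairs. -/
structure Good (k : Type) [Field k] (N : ℕ) (α β : k) (q r : k[X]) : Prop where
  irr : ∀ f ∈ six α β q r, Irreducible f ∧ f.natDegree = N ∧ f.Separable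
  cop : IsCoprime q r
  tate : ∀ (L L' K F : Type) [Field L] [Field L'] [Algebra L L'] [Field K] [Algebra L[X] K]
    [Field F] [Algebra L'[X] F] [IsFractionRing L'[X] F] [Algebra K F]
    [Algebra k L] [Algebra k L'] [IsScalarTower k L L'], IsTower L L' K F →
      ∀ M : IntermediateField k L', Normal k M →
        (∀ x : L, IsSeparable k x → algebraMap L L' x ∈ M) →
        (∀ f ∈ six α β q r, ¬ (f.map (algebraMap k M)).Splits) →
        HoldsOver α β q r L L' K F
  solv : ∀ (L L' K F : Type) [Field L] [Field L'] [Algebra L L'] [Field K] [Algebra L[X] K]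
    [Field F] [Algebra L'[X] F] [IsFractionRing L'[X] F] [Algebra K F]
    [Algebra k L] [Algebra k L'] [IsScalarTower k L L'], IsTower L L' K F →
      (∀ x : L, IsSeparable k x → Group.IsSolvable (minpoly k x).Gal) →
        HoldsOver α β q r L L' K F

/-- The pair `y` over `R` is in the residue class `z`. -/
def InClass {R : Type} [CommRing R] {N : ℕ} {M : Ideal R} (y : Pairs N R)
    (z : Pairs N (R ⧸ M)) : Prop :=
  (∀ j, Ideal.Quotient.mk M (y.1 j) = z.1 j) ∧ (∀ j, Ideal.Quotient.mk M (y.2 j) = z.2 j)

/-- A sequence of finite sets of pairs which is equidistributed modulo each ideal with finite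
quotient. -/
def Equidistributed {R : Type} [CommRing R] {N : ℕ} (B : ℕ → Finset (Pairs N R)) : Prop :=
  ∀ M : Ideal R, Finite (R ⧸ M) → ∀ z : Pairs N (R ⧸ M),
    Tendsto (fun i => (((B i).filter (fun y => InClass y z)).card : ℝ) / ((B i).card : ℝ)) atTop
      (𝓝 (1 / (Nat.card (Pairs N (R ⧸ M)) : ℝ)))

/-- The vector of all the coefficients. -/
def toV {N : ℕ} {R : Type} (z : Pairs N R) : Fin (N + 1) ⊕ Fin (N + 1) → R := Sum.elim z.1 z.2

theorem toV_inj {N : ℕ} {R : Type} : Function.Injective (toV (N := N) (R := R)) := by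
  rintro ⟨a, b⟩ ⟨a', b'⟩ h
  exact Prod.ext (funext fun j => congrFun h (Sum.inl j)) (funext fun j => congrFun h (Sum.inr j))

theorem toV_surj {N : ℕ} {R : Type} (y : Fin (N + 1) ⊕ Fin (N + 1) → R) :
    ∃ z : Pairs N R, toV z = y := by
  refine ⟨(fun j => y (Sum.inl j), fun j => y (Sum.inr j)), ?_⟩
  funext j
  rcases j with j | j <;> rfl

theorem inClass_iff {R : Type} [CommRing R] {N : ℕ} {M : Ideal R} (y : Pairs N R)
    (z : Pairs N (R ⧸ M)) :
    InClass y z ↔ ∀ j, Ideal.Quotient.mk M (toV y j) = toV z j := by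
  constructor
  · rintro ⟨h1, h2⟩ (j | j)
    · exact h1 j
    · exact h2 j
  · intro h
    exact ⟨fun j => h (Sum.inl j), fun j => h (Sum.inr j)⟩

open Pool.Agent.X243.Gen (fms FF rk_ext rk_solv) in
theorem good_of_FF {k : Type} [Field k] (h2 : (2 : k) ≠ 0) {α β μ : k} (hα : α ≠ 0) (hβ : β ≠ 0)
    (hμ : μ ≠ 0) (hsq : ((α + β) ^ 2 - 1) * ((α - β) ^ 2 - 1) = μ ^ 2) {q r : k[X]} {N : ℕ}
    (hN : 5 ≤ N) (hodd : Odd N) (hf : ∀ f ∈ fms α β q r, FF N f) (hco : IsCoprime q r) :
    Good k N α β q r := by
  have e1 : ∀ L : Type, ∀ [Field L] [Algebra k L], ((pp α β q r ^ 2 - q ^ 2).map (algebraMap k L)) =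
      (C (algebraMap k L α) * q.map (algebraMap k L) + C (algebraMap k L β) *
        r.map (algebraMap k L)) ^ 2 - (q.map (algebraMap k L)) ^ 2 := by
    intro L _ _
    simp only [pp, Polynomial.map_sub, Polynomial.map_pow, Polynomial.map_add, Polynomial.map_mul,
      map_C]
  have e2 : ∀ L : Type, ∀ [Field L] [Algebra k L], ((pp α β q r ^ 2 - r ^ 2).map (algebraMap k L)) =
      (C (algebraMap k L α) * q.map (algebraMap k L) + C (algebraMap k L β) *
        r.map (algebraMap k L)) ^ 2 - (r.map (algebraMap k L)) ^ 2 := by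
    intro L _ _
    simp only [pp, Polynomial.map_sub, Polynomial.map_pow, Polynomial.map_add, Polynomial.map_mul,
      map_C]
  refine ⟨fun f hf' => ⟨(hf f hf').1.1, (hf f hf').1.2, (hf f hf').2.1⟩, hco, ?_, ?_⟩
  · intro L L' K F _ _ _ _ _ _ _ _ _ _ _ _ hT M hMn hM hns
    have key := rk_ext h2 hα hβ hμ hsq hN hodd hf hco hT M hMn hM hns rfl rfl rfl rfl rfl
    unfold HoldsOver
    unfold Ep
    rw [e1, e2]
    exact key
  · intro L L' K F _ _ _ _ _ _ _ _ _ _ _ _ hT hM
    have key := rk_solv h2 hα hβ hμ hsq hN hodd hf hco hT hM rfl rfl rfl rfl rfl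
    unfold HoldsOver
    unfold Ep
    rw [e1, e2]
    exact key

theorem good_of {R k : Type} [CommRing R] [IsDomain R] [IsIntegrallyClosed R] [IsNoetherianRing R]
    [Field k] [Algebra R k] [IsFractionRing R k] (h2 : (2 : R) ≠ 0) {A B D : R} (hD : D ≠ 0)
    {α β μ : k} (hA : α * algebraMap R k D = algebraMap R k A)
    (hB : β * algebraMap R k D = algebraMap R k B) (hα : α ≠ 0) (hβ : β ≠ 0) (hμ : μ ≠ 0)
    (hsq : ((α + β) ^ 2 - 1) * ((α - β) ^ 2 - 1) = μ ^ 2)
    {N b : ℕ} {c : R} (hN : 5 ≤ N) (hodd : Odd N) {z : Pairs N R}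
    (h : ∀ s : Option (Fin 6 × Fin 3), ∃ p ∈ Pool.Agent.X243.Gen.Zc R b c,
      (fun j => Ideal.Quotient.mk p (toV z j)) ∈ Pool.Agent.X243.Gen.Lev N
        (Pool.Agent.X243.Gen.rl A D) (Pool.Agent.X243.Gen.rm B D) 4 5 s p) :
    Good k N α β (poly k z.1) (poly k z.2) := by
  have h2k : (2 : k) ≠ 0 := by
    rw [← map_ofNat (algebraMap R k) 2]
    exact (map_ne_zero_iff _ (IsFractionRing.injective R k)).2 h2
  obtain ⟨h1, h3⟩ := Pool.Agent.X243.Gen.rk_good (k := k) hD hA hB (by omega : 3 ≤ N) h
    (poly k z.1) (poly k z.2)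
    (Pool.Agent.X243.Tate.bF_map (algebraMap R k) z.1).symm
    (Pool.Agent.X243.Tate.bF_map (algebraMap R k) z.2).symm
  exact good_of_FF h2k hα hβ hμ hsq hN hodd h1 h3

theorem result :
    ∀ (R k : Type) [CommRing R] [IsDomain R] [IsIntegrallyClosed R] [Algebra.FiniteType ℤ R]
      [Field k] [Algebra R k] [IsFractionRing R k], ¬ IsField R → (2 : R) ≠ 0 →
      ∀ α β μ : k, α ≠ 0 → β ≠ 0 → μ ≠ 0 → ((α + β) ^ 2 - 1) * ((α - β) ^ 2 - 1) = μ ^ 2 →
      ∀ N : ℕ, 5 ≤ N → Odd N →
        (∀ η : ℝ, 0 < η → ∃ M : Ideal R, Finite (R ⧸ M) ∧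
          (1 - η) * (Nat.card (Pairs N (R ⧸ M)) : ℝ) ≤
          (({z : Pairs N (R ⧸ M) | ∀ y : Pairs N R, InClass y z →
                Good k N α β (poly k y.1) (poly k y.2)}.ncard : ℕ) : ℝ)) ∧
        (∀ B : ℕ → Finset (Pairs N R), (∀ i, (B i).Nonempty) → Equidistributed B →
          Tendsto (fun i => (((B i).filter (fun y =>
              Good k N α β (poly k y.1) (poly k y.2))).card : ℝ) /
            ((B i).card : ℝ)) atTop (𝓝 1)) := by
  intro R k _ _ _ _ _ _ _ hR h2 α β μ hα hβ hμ hsq N hN hodd
  have : IsNoetherianRing R := Algebra.FiniteType.isNoetherianRing ℤ R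
  have hcard : ∀ M : Ideal R, (Nat.card (Pairs N (R ⧸ M)) : ℝ) =
      (Nat.card (R ⧸ M) : ℝ) ^ (Fintype.card (Fin (N + 1) ⊕ Fin (N + 1))) := by
    intro M
    rw [Nat.card_congr (Equiv.ofBijective _ ⟨toV_inj (N := N) (R := R ⧸ M), toV_surj⟩),
      Nat.card_fun, Nat.card_eq_fintype_card (α := Fin (N + 1) ⊕ Fin (N + 1))]
    push_cast
    rfl
  -- a common denominator
  obtain ⟨A, B, D, hD, hA, hB⟩ : ∃ A B D : R, D ≠ 0 ∧ α * algebraMap R k D = algebraMap R k A ∧
      β * algebraMap R k D = algebraMap R k B := by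
    obtain ⟨⟨a, d⟩, ha⟩ := IsLocalization.surj (nonZeroDivisors R) α
    obtain ⟨⟨b, e⟩, hb⟩ := IsLocalization.surj (nonZeroDivisors R) β
    refine ⟨a * e, b * d, d * e, mul_ne_zero (nonZeroDivisors.ne_zero d.2)
      (nonZeroDivisors.ne_zero e.2), ?_, ?_⟩
    · rw [map_mul, map_mul, ← mul_assoc, ha]
    · rw [map_mul, map_mul, mul_comm (algebraMap R k (d : R)), ← mul_assoc, hb]
  have hDk : algebraMap R k D ≠ 0 := (map_ne_zero_iff _ (IsFractionRing.injective R k)).2 hD
  have hA0 : A ≠ 0 := by
    rintro rfl
    rw [map_zero] at hA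
    exact mul_ne_zero hα hDk hA
  have hB0 : B ≠ 0 := by
    rintro rfl
    rw [map_zero] at hB
    exact mul_ne_zero hβ hDk hB
  -- the good vectors
  obtain ⟨S, hS⟩ : ∃ S : Set (Fin (N + 1) ⊕ Fin (N + 1) → R),
      S = {x | ∃ z : Pairs N R, toV z = x ∧ Good k N α β (poly k z.1) (poly k z.2)} := ⟨_, rfl⟩
  have hSmem : ∀ y : Pairs N R, toV y ∈ S ↔ Good k N α β (poly k y.1) (poly k y.2) := by
    intro y
    rw [hS]
    constructor
    · rintro ⟨z, hz, hg⟩
      rwa [toV_inj hz] at hg
    · intro hg
      exact ⟨y, rfl, hg⟩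
  have key : ∀ η : ℝ, 0 < η → ∃ M : Ideal R, Finite (R ⧸ M) ∧
      (1 - η) * (Nat.card (R ⧸ M) : ℝ) ^ (Fintype.card (Fin (N + 1) ⊕ Fin (N + 1))) ≤
        (({x : Fin (N + 1) ⊕ Fin (N + 1) → R ⧸ M | ∀ y : Fin (N + 1) ⊕ Fin (N + 1) → R,
          (∀ j, Ideal.Quotient.mk M (y j) = x j) → y ∈ S}).ncard : ℝ) := by
    intro η hη
    obtain ⟨M, hM, hd⟩ := Pool.Agent.X243.Gen.densLin R hR h2 (by omega : 3 ≤ N)
      (Pool.Agent.X243.Gen.r_ne (D := D) hA0 hB0) (Pool.Agent.X243.Gen.r_det h2 A B D) η hη
    have := hM
    refine ⟨M, hM, hd.trans ?_⟩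
    have h3 : ∀ S T : Set (Fin (N + 1) ⊕ Fin (N + 1) → R ⧸ M), S ⊆ T →
        ((S.ncard : ℕ) : ℝ) ≤ ((T.ncard : ℕ) : ℝ) := fun S T h => by
      exact_mod_cast Set.ncard_le_ncard h (Set.toFinite _)
    apply h3
    intro x hx y hy
    obtain ⟨z, rfl⟩ := toV_surj y
    rw [hSmem]
    refine good_of h2 hD hA hB hα hβ hμ hsq (b := 2 * N + 2)
      (c := Pool.Agent.X243.Gen.cst (Pool.Agent.X243.Gen.rl A D) (Pool.Agent.X243.Gen.rm B D) 4 5)
      hN hodd (fun s => ?_)
    obtain ⟨p, hp, hp'⟩ := hx s
    exact ⟨p, hp, hp' (toV z) hy⟩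
  constructor
  · intro η hη
    obtain ⟨M, hM, hd⟩ := key η hη
    have := hM
    refine ⟨M, hM, ?_⟩
    rw [hcard]
    refine hd.trans ?_
    rw [← Set.ncard_image_of_injective _ (toV_inj (R := R ⧸ M) (N := N))]
    have h3 : ∀ S T : Set (Fin (N + 1) ⊕ Fin (N + 1) → R ⧸ M), S ⊆ T →
        ((S.ncard : ℕ) : ℝ) ≤ ((T.ncard : ℕ) : ℝ) := fun S T h => by
      exact_mod_cast Set.ncard_le_ncard h (Set.toFinite _)
    apply h3
    intro x hx
    obtain ⟨z, rfl⟩ := toV_surj x
    refine ⟨z, fun y hy => ?_, rfl⟩
    rw [← hSmem]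
    exact hx _ ((inClass_iff y z).1 hy)
  · intro B hB heq
    have hinj : Function.Injective (toV (R := R) (N := N)) := toV_inj
    have hc : ∀ (i : ℕ) (P : (Fin (N + 1) ⊕ Fin (N + 1) → R) → Prop) [DecidablePred P]
        (Q : Pairs N R → Prop) [DecidablePred Q], (∀ y, P (toV y) ↔ Q y) →
        (((B i).map ⟨toV, hinj⟩).filter P).card = ((B i).filter Q).card := by
      intro i P _ Q _ hPQ
      rw [Finset.filter_map, Finset.card_map]
      congr 1
      ext y
      rw [Finset.mem_filter, Finset.mem_filter]
      exact and_congr_right fun _ => hPQ y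
    have hlim := Pool.Agent.X243.Gen.tendsto_of_dens S key (fun i => (B i).map ⟨toV, hinj⟩)
      (fun i => (hB i).map) (by
        intro M hM x
        obtain ⟨z, rfl⟩ := toV_surj x
        have h1 := heq M hM z
        rw [hcard] at h1
        refine h1.congr fun i => ?_
        rw [Finset.card_map, hc i _ (fun y => InClass y z) (fun y => (inClass_iff y z).symm)])
    refine hlim.congr fun i => ?_
    rw [Finset.card_map, hc i _ (fun y => Good k N α β (poly k y.1) (poly k y.2)) hSmem]

end Pool.Agent.Results.MP_1bad5e_ag.RankTwoLocus
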